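import Mathlib

/-!
# Two groups of order 273 and the subgroup lattices of their direct powers

`G s` (with `s ^ 3 = 1` in `ZMod 13`) is the group `(C₇ × C₁₃) ⋊ C₃` in which the generator of `C₃` acts on
`C₇` by `a ↦ 2 a` and on `C₁₃` by `c ↦ s c`. The bijection `f : (a, c, t) ↦ (a, - s^{-t} c, t)` from `G s` to
`G s⁻¹` is an isomorphism on the first and an anti-isomorphism on the second component; since the
commutator subgroups of the two components have coprime exponents, `f` (applied coordinatewise) maps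
subgroups of direct powers of `G s` to subgroups.
-/

set_option autoImplicit false

namespace Pool.Agent.Q199.SL

/-- The elements of `(C₇ × C₁₃) ⋊ C₃`. -/
@[ext] structure G (s : ZMod 13) where
  a : ZMod 7
  c : ZMod 13
  t : ZMod 3
deriving DecidableEq

/-- `s ^ t`. -/
def pw (s : ZMod 13) (t : ZMod 3) : ZMod 13 := s ^ t.val

/-- `2 ^ t`. -/
def tw (t : ZMod 3) : ZMod 7 := 2 ^ t.val

lemma tw_add (t u : ZMod 3) : tw (t + u) = tw t * tw u := by revert t u; decide

lemma tw_zero : tw 0 = 1 := by decide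

lemma tw_neg (t : ZMod 3) : tw t * tw (-t) = 1 := by revert t; decide

/-- The admissible parameters. -/
class Cube (s : ZMod 13) : Prop where
  h : s ^ 3 = 1

instance : Cube 3 := ⟨by decide⟩
instance : Cube 9 := ⟨by decide⟩

lemma pw_add (s : ZMod 13) [hs : Cube s] (t u : ZMod 3) : pw s (t + u) = pw s t * pw s u := by
  have h := hs.h
  clear hs
  revert t u
  revert s
  unfold pw
  decide

lemma pw_zero (s : ZMod 13) : pw s 0 = 1 := by simp [pw]

lemma pw_neg (s : ZMod 13) [hs : Cube s] (t : ZMod 3) : pw s t * pw s (-t) = 1 := by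
  rw [← pw_add]; simp [pw_zero]

namespace G

set_option linter.unusedSectionVars false

variable {s : ZMod 13} [Cube s]

instance : Mul (G s) := ⟨fun x y => ⟨x.a + tw x.t * y.a, x.c + pw s x.t * y.c, x.t + y.t⟩⟩
instance : One (G s) := ⟨⟨0, 0, 0⟩⟩
instance : Inv (G s) := ⟨fun x => ⟨-(tw (-x.t) * x.a), -(pw s (-x.t) * x.c), -x.t⟩⟩

@[simp] lemma mul_a (x y : G s) : (x * y).a = x.a + tw x.t * y.a := rfl
@[simp] lemma mul_c (x y : G s) : (x * y).c = x.c + pw s x.t * y.c := rfl
@[simp] lemma mul_t (x y : G s) : (x * y).t = x.t + y.t := rfl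
@[simp] lemma one_a : (1 : G s).a = 0 := rfl
@[simp] lemma one_c : (1 : G s).c = 0 := rfl
@[simp] lemma one_t : (1 : G s).t = 0 := rfl
@[simp] lemma inv_a (x : G s) : (x⁻¹).a = -(tw (-x.t) * x.a) := rfl
@[simp] lemma inv_c (x : G s) : (x⁻¹).c = -(pw s (-x.t) * x.c) := rfl
@[simp] lemma inv_t (x : G s) : (x⁻¹).t = -x.t := rfl

instance : Group (G s) := Group.ofLeftAxioms
  (by
    intro x y z
    ext
    · simp only [mul_a, mul_t, tw_add]; ring
    · simp only [mul_c, mul_t, pw_add]; ring
    · simp only [mul_t]; ring)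
  (by
    intro x
    ext <;> simp [tw_zero, pw_zero])
  (by
    intro x
    ext
    · simp only [mul_a, inv_a, inv_t, one_a]; ring
    · simp only [mul_c, inv_c, inv_t, one_c]; ring
    · simp)

/-- Powers of elements of the kernel `C₇ × C₁₃`. -/
lemma pow_of_t (x : G s) (hx : x.t = 0) (n : ℕ) :
    (x ^ n).a = n * x.a ∧ (x ^ n).c = n * x.c ∧ (x ^ n).t = 0 := by
  induction n with
  | zero => simp
  | succ n ih =>
    obtain ⟨h1, h2, h3⟩ := ih
    refine ⟨?_, ?_, ?_⟩
    · rw [pow_succ, mul_a, h1, h3, tw_zero]; push_cast; ring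
    · rw [pow_succ, mul_c, h2, h3, pw_zero]; push_cast; ring
    · rw [pow_succ, mul_t, h3, hx]; rfl

/-- A product which is `x y` on the first and `y x` on the second component. -/
def mix (x y : G s) : G s := x * y * (y⁻¹ * x⁻¹ * y * x) ^ 14

lemma comm_t (x y : G s) : (y⁻¹ * x⁻¹ * y * x).t = 0 := by
  simp only [mul_t, inv_t]; ring

lemma mix_a (x y : G s) : (mix x y).a = x.a + tw x.t * y.a := by
  obtain ⟨h1, -, -⟩ := pow_of_t _ (comm_t x y) 14
  have h14 : ((14 : ℕ) : ZMod 7) = 0 := by decide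
  rw [mix, mul_a, h1, h14]
  simp

lemma mix_c (x y : G s) : (mix x y).c = y.c + pw s y.t * x.c := by
  obtain ⟨-, h2, -⟩ := pow_of_t _ (comm_t x y) 14
  have h14 : ((14 : ℕ) : ZMod 13) = 1 := by decide
  have h : y * x = x * y * (y⁻¹ * x⁻¹ * y * x) := by group
  have h' : (mix x y).c = (y * x).c := by
    conv_rhs => rw [h]
    rw [mix, mul_c, mul_c (x * y) (y⁻¹ * x⁻¹ * y * x), h2, h14, one_mul]
  rw [h', mul_c]

lemma mix_t (x y : G s) : (mix x y).t = x.t + y.t := by
  obtain ⟨-, -, h3⟩ := pow_of_t _ (comm_t x y) 14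
  rw [mix, mul_t, h3, mul_t, add_zero]

end G

set_option linter.unusedSectionVars false

/-- The bijection: an isomorphism on the first, an anti-isomorphism on the second component. -/
def F (s s' : ZMod 13) (x : G s) : G s' := ⟨x.a, -(pw s' x.t * x.c), x.t⟩

/-- Inverse parameters. -/
class Pair (s s' : ZMod 13) : Prop where
  h : ∀ t, pw s t * pw s' t = 1

instance : Pair 3 9 := ⟨by decide⟩
instance : Pair 9 3 := ⟨by decide⟩

variable {s s' : ZMod 13} [Cube s] [Cube s']

lemma F_F [hp : Pair s s'] (x : G s) : F s' s (F s s' x) = x := by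
  have h := hp.h x.t
  ext
  · rfl
  · show -(pw s x.t * -(pw s' x.t * x.c)) = x.c
    linear_combination x.c * h
  · rfl

lemma F_one : F s s' (1 : G s) = 1 := by
  ext <;> simp [F]

lemma F_inv [hp : Pair s s'] (x : G s) : F s s' x⁻¹ = (F s s' x)⁻¹ := by
  have h := hp.h (-x.t)
  have h1 := pw_neg s' x.t
  ext
  · rfl
  · show -(pw s' (-x.t) * -(pw s (-x.t) * x.c)) = -(pw s' (-x.t) * -(pw s' x.t * x.c))
    linear_combination x.c * h - x.c * h1
  · rfl

lemma F_mul [hp : Pair s s'] (x y : G s) : F s s' (x * y) = G.mix (F s s' x) (F s s' y) := by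
  have h := hp.h x.t
  ext
  · rw [G.mix_a]; rfl
  · rw [G.mix_c]
    show -(pw s' (x.t + y.t) * (x.c + pw s x.t * y.c)) = -(pw s' y.t * y.c) + pw s' y.t * -(pw s' x.t * x.c)
    rw [pw_add]
    linear_combination (-(pw s' y.t) * y.c) * h
  · rw [G.mix_t]; rfl

variable {ι : Type*}

/-- The subgroups correspond. -/
def toSub (s s' : ZMod 13) [Cube s] [Cube s'] [Pair s' s] (H : Subgroup (ι → G s)) :
    Subgroup (ι → G s') where
  carrier := {h | (fun i => F s' s (h i)) ∈ H}
  one_mem' := by
    show (fun i => F s' s ((1 : ι → G s') i)) ∈ H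
    have : (fun i => F s' s ((1 : ι → G s') i)) = (1 : ι → G s) := by
      funext i; exact F_one
    rw [this]; exact H.one_mem
  inv_mem' := by
    intro x hx
    show (fun i => F s' s (x⁻¹ i)) ∈ H
    have : (fun i => F s' s (x⁻¹ i)) = (fun i => F s' s (x i))⁻¹ := by
      funext i; exact F_inv _
    rw [this]; exact H.inv_mem hx
  mul_mem' := by
    intro x y hx hy
    show (fun i => F s' s ((x * y) i)) ∈ H
    set u : ι → G s := fun i => F s' s (x i) with hu
    set v : ι → G s := fun i => F s' s (y i) with hv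
    have : (fun i => F s' s ((x * y) i)) = u * v * (v⁻¹ * u⁻¹ * v * u) ^ 14 := by
      funext i; exact F_mul _ _
    rw [this]
    exact H.mul_mem (H.mul_mem hx hy) (H.pow_mem (H.mul_mem (H.mul_mem (H.mul_mem
      (H.inv_mem hy) (H.inv_mem hx)) hy) hx) 14)

lemma mem_toSub [Pair s' s] (H : Subgroup (ι → G s)) (h : ι → G s') :
    h ∈ toSub s s' H ↔ (fun i => F s' s (h i)) ∈ H := Iff.rfl

/-- The lattice isomorphism. -/
def iso (s s' : ZMod 13) [Cube s] [Cube s'] [Pair s' s] [Pair s s'] (ι : Type*) :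
    Subgroup (ι → G s) ≃o Subgroup (ι → G s') where
  toFun := toSub s s'
  invFun := toSub s' s
  left_inv := by
    intro H
    ext x
    rw [mem_toSub, mem_toSub]
    have : (fun i => F s' s (F s s' (x i))) = x := by funext i; exact F_F _
    rw [this]
  right_inv := by
    intro H
    ext x
    rw [mem_toSub, mem_toSub]
    have : (fun i => F s s' (F s' s (x i))) = x := by funext i; exact F_F _
    rw [this]
  map_rel_iff' := by
    intro H K
    constructor
    · intro h x hx
      have h1 : (fun i => F s s' (x i)) ∈ toSub s s' H := by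
        rw [mem_toSub]
        have : (fun i => F s' s (F s s' (x i))) = x := by funext i; exact F_F _
        rw [this]; exact hx
      have h2 := h h1
      have h3 : (fun i => F s' s (F s s' (x i))) ∈ K := h2
      have : (fun i => F s' s (F s s' (x i))) = x := by funext i; exact F_F _
      rwa [this] at h3
    · intro h x hx
      exact h hx

lemma mem_range {α : Type*} [Group α] {n : ℕ} (i : Fin n) (x : Fin n → α) :
    x ∈ (MonoidHom.mulSingle (fun _ : Fin n => α) i).range ↔ ∀ j, j ≠ i → x j = 1 := by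
  constructor
  · rintro ⟨y, rfl⟩ j hj
    rw [MonoidHom.mulSingle_apply]
    exact Function.update_of_ne hj _ _
  · intro h
    refine ⟨x i, ?_⟩
    funext j
    by_cases hj : j = i
    · subst hj
      rw [MonoidHom.mulSingle_apply]
      exact Function.update_self _ _ _
    · rw [h j hj, MonoidHom.mulSingle_apply]
      exact Function.update_of_ne hj _ _

lemma F_eq_one [Pair s s'] (x : G s) : F s s' x = 1 ↔ x = 1 := by
  constructor
  · intro h
    have := F_F (s' := s') x
    rw [h, F_one] at this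
    exact this.symm
  · rintro rfl; exact F_one

lemma iso_range [Pair s' s] [Pair s s'] {n : ℕ} (i : Fin n) :
    iso s s' (Fin n) (MonoidHom.mulSingle (fun _ : Fin n => G s) i).range =
      (MonoidHom.mulSingle (fun _ : Fin n => G s') i).range := by
  ext x
  show (fun i => F s' s (x i)) ∈ (MonoidHom.mulSingle (fun _ : Fin n => G s) i).range ↔ _
  rw [mem_range, mem_range]
  simp only [F_eq_one]

/-- `G 9` and `G 3` are not isomorphic. -/
lemma not_iso : ¬ Nonempty (G 9 ≃* G 3) := by
  rintro ⟨e⟩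
  -- generators of `G 9`
  set a : G 9 := ⟨1, 0, 0⟩ with ha
  set c : G 9 := ⟨0, 1, 0⟩ with hc
  set b : G 9 := ⟨0, 0, 1⟩ with hb
  have h7 : a ^ 7 = 1 := by decide
  have h13 : c ^ 13 = 1 := by decide
  have hba : b * a = a ^ 2 * b := by decide
  have hbc : b * c = c ^ 9 * b := by decide
  have ha1 : a ≠ 1 := by decide
  have hc1 : c ≠ 1 := by decide
  have k7 : (e a) ^ 7 = 1 := by rw [← map_pow, h7, map_one]
  have k13 : (e c) ^ 13 = 1 := by rw [← map_pow, h13, map_one]
  have kba : e b * e a = (e a) ^ 2 * e b := by rw [← map_pow, ← map_mul, ← map_mul, hba]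
  have kbc : e b * e c = (e c) ^ 9 * e b := by rw [← map_pow, ← map_mul, ← map_mul, hbc]
  have ka1 : e a ≠ 1 := by simpa using ha1
  have kc1 : e c ≠ 1 := by simpa using hc1
  have t7 : ∀ x : G 3, ∀ n : ℕ, (x ^ n).t = n * x.t := by
    intro x n
    induction n with
    | zero => simp
    | succ n ih => rw [pow_succ, G.mul_t, ih]; push_cast; ring
  -- the element `e a` lies in `C₇`
  have a_t : (e a).t = 0 := by
    have h := congrArg G.t k7
    rw [t7] at h
    have : ((7 : ℕ) : ZMod 3) = 1 := by decide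
    rw [this, one_mul] at h
    exact h
  have c_t : (e c).t = 0 := by
    have h := congrArg G.t k13
    rw [t7] at h
    have : ((13 : ℕ) : ZMod 3) = 1 := by decide
    rw [this, one_mul] at h
    exact h
  obtain ⟨-, a2, -⟩ := G.pow_of_t (e a) a_t 7
  obtain ⟨c1, -, -⟩ := G.pow_of_t (e c) c_t 13
  have a_c : (e a).c = 0 := by
    rw [k7] at a2
    have : ∀ z : ZMod 13, (0 : ZMod 13) = ((7 : ℕ) : ZMod 13) * z → z = 0 := by decide
    exact this _ a2
  have c_a : (e c).a = 0 := by
    rw [k13] at c1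
    have : ∀ z : ZMod 7, (0 : ZMod 7) = ((13 : ℕ) : ZMod 7) * z → z = 0 := by decide
    exact this _ c1
  have a_a : (e a).a ≠ 0 := by
    intro h
    exact ka1 (G.ext h a_c a_t)
  have c_c : (e c).c ≠ 0 := by
    intro h
    exact kc1 (G.ext c_a h c_t)
  -- compare the actions of `e b`
  have e1 := congrArg G.a kba
  have e2 := congrArg G.c kbc
  obtain ⟨p1, -, p3⟩ := G.pow_of_t (e a) a_t 2
  obtain ⟨-, q2, q3⟩ := G.pow_of_t (e c) c_t 9
  rw [G.mul_a, G.mul_a, p1, p3, tw_zero] at e1
  rw [G.mul_c, G.mul_c, q2, q3, pw_zero] at e2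
  have f1 : (tw (e b).t - 2) * (e a).a = 0 := by push_cast at e1; linear_combination e1
  have f2 : (pw 3 (e b).t - 9) * (e c).c = 0 := by push_cast at e2; linear_combination e2
  have key : ∀ (t : ZMod 3) (x : ZMod 7) (y : ZMod 13), x ≠ 0 → y ≠ 0 →
      (tw t - 2) * x = 0 → (pw 3 t - 9) * y = 0 → False := by
    have k1 : ∀ (t : ZMod 3) (x : ZMod 7), x ≠ 0 → (tw t - 2) * x = 0 → t = 1 := by decide
    have k2 : ∀ (y : ZMod 13), y ≠ 0 → (pw 3 1 - 9) * y = 0 → False := by decide
    intro t x y hx hy h1 h2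
    have := k1 t x hx h1
    subst this
    exact k2 y hy h2
  exact key _ _ _ a_a c_c f1 f2

end Pool.Agent.Q199.SL
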